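import Pool.Agent.L5helper36.FP.Ratio
import Pool.Agent.L5helper19.FP.Pol

/-!
# The Hasse principle for 100% of the Fano complete intersections in products of projective spaces

Let `F₁, …, F_s` be integral forms of multidegrees `d₁, …, d_s` in the homogeneous coordinates of
`ℙ = ℙ^(n₀) × ℙ^(n₁) × … × ℙ^(n_(r-1))`, `d_j = (d_j(0), …, d_j(r-1))`, and let `X_F ⊆ ℙ` be the
intersection of the hypersurfaces `F_j = 0`. If `X_F` is smooth of codimension `s` and
`∑ j, d_j(c) ≤ n_c` for every factor `c`, then `X_F` is a Fano variety (its anticanonical sheaf is the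
restriction of the ample sheaf `O(n₀ + 1 - ∑ j, d_j(0), …)`).

We assume that in one factor `c₀` one has `n_(c₀) ≥ 3`, `d_j(c₀) ≥ 2` for all `j` and
`∑ j, d_j(c₀) ≤ n_(c₀)`; the degrees in the other factors are arbitrary (they may be `0`, and they may be
so large that `X_F` is not a Fano variety: it is always rationally connected over its image, a product of
projective spaces). We order the systems `F` by the maximum `H` of the absolute values of their
coefficients. Then a positive proportion of all systems is smooth and has points over the real numbers and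
over all the `p`-adic fields, and among the smooth `X_F` with points everywhere locally a proportion
tending to `1` as `H → ∞` has a rational point.

Proof. Let `Y` be the product of the other factors. For a point `y` of `Y` the fibre of `X_F` over `y` is
the complete intersection in `ℙ^(n_(c₀))` of the forms `F_j(x, y)` of degrees `d_j(c₀)`. A nonzero
polynomial `G` in the coefficients of `F` is nonzero only if `X_F` is smooth and, at a general point of
every sufficiently large linear section of every chart, the fibre through the point is smooth at the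
point. The polynomial `G` is rarely small in the real and in the `p`-adic metrics (small prime numbers).
So for all but `ε` of the systems with points everywhere locally one finds, by compactness, a rational
point `y` of `Y`, the same for all systems in a box in a residue class, over which the fibre has points
over `ℝ` and over `ℚ_p`, `p ≤ w`, in a stable way. The coefficients of the `F_j(x, y)` are equidistributed
integral linear combinations of the coefficients of `F`, and the theorem on the zeros of almost all the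
systems of forms in a box in a residue class (starting point of this repository, `Y716.D.class_all`),
applied to the translates of the system by the systems with coefficients `λ · g`, gives rational points on
the fibres over `y` for all but `ε` of the systems of the class.
-/

set_option autoImplicit false

namespace Pool.Agent.Results.MP_03ef3d_ag.FanoProducts

open Filter Topology MvPolynomial

/-- The variables: `(c, i)`, `i ≤ n c`, are the homogeneous coordinates of the factor `ℙ^(n c)`. -/
abbrev Vars {r : ℕ} (n : Fin r → ℕ) : Type := Σ c : Fin r, Fin (n c + 1)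

/-- The systems `F_j`, `j < s`, of polynomials with integral coefficients of absolute value at most
`H`, such that `F_j` is homogeneous of degree `d j c` in the coordinates of each factor `ℙ^(n c)`. -/
def Systems {r s : ℕ} (n : Fin r → ℕ) (d : Fin s → Fin r → ℕ) (H : ℕ) :
    Set (Fin s → MvPolynomial (Vars n) ℤ) :=
  {F | ∀ j, (∀ m ∈ (F j).support, ∀ c, ∑ i, m ⟨c, i⟩ = d j c) ∧
    ∀ m, |(F j).coeff m| ≤ (H : ℤ)}

/-- `z` are homogeneous coordinates of a point of `X_F` over the field `K`: the coordinates
`z c = (z c 0 : … : z c (n c))` of the factor `c` are not all zero, and `F_j(z) = 0` for all `j`. -/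
def IsPoint {r s : ℕ} {n : Fin r → ℕ} (F : Fin s → MvPolynomial (Vars n) ℤ) {K : Type} [Field K]
    (z : (c : Fin r) → Fin (n c + 1) → K) : Prop :=
  (∀ c, z c ≠ 0) ∧ ∀ j, aeval (fun v : Vars n => z v.1 v.2) (F j) = 0

/-- `X_F` is smooth of codimension `s`: at each of its points over a field of characteristic zero
the gradients of `F_1, …, F_s` are linearly independent. -/
def Smooth {r s : ℕ} {n : Fin r → ℕ} (F : Fin s → MvPolynomial (Vars n) ℤ) : Prop :=
  ∀ (K : Type) [Field K] [CharZero K] (z : (c : Fin r) → Fin (n c + 1) → K), IsPoint F z →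
    ∀ l : Fin s → K, l ≠ 0 →
      ∃ v : Vars n, ∑ j, l j * aeval (fun v : Vars n => z v.1 v.2) (pderiv v (F j)) ≠ 0

/-- `X_F` has a point over the field `K`. -/
def HasPoint {r s : ℕ} {n : Fin r → ℕ} (F : Fin s → MvPolynomial (Vars n) ℤ) (K : Type)
    [Field K] : Prop :=
  ∃ z : (c : Fin r) → Fin (n c + 1) → K, IsPoint F z

/-- `X_F` has points over the real numbers and over all the `p`-adic fields. -/
def LocallySoluble {r s : ℕ} {n : Fin r → ℕ} (F : Fin s → MvPolynomial (Vars n) ℤ) : Prop :=
  HasPoint F ℝ ∧ ∀ (p : ℕ) [Fact p.Prime], HasPoint F ℚ_[p]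

section

open Pool.Agent.L5helper36.FP

variable {r s : ℕ} (n : Fin r → ℕ) (d : Fin s → Fin r → ℕ)

/-- the block of a variable -/
def bl : Vars n → Fin r := Sigma.fst

theorem sum_block (c : Fin r) (m : Vars n → ℕ) :
    ∑ v with bl n v = c, m v = ∑ i, m ⟨c, i⟩ := by
  rw [Finset.sum_filter, Fintype.sum_sigma]
  rw [Finset.sum_eq_single c]
  · simp [bl]
  · intro c' _ hc'
    simp [bl, hc']
  · intro h
    exact absurd (Finset.mem_univ c) h

theorem isPoint_iff {K : Type} [Field K] (a : Ix (bl n) d → ℤ)
    (z : (c : Fin r) → Fin (n c + 1) → K) :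
    IsPoint (Pool.Agent.L5helper36.FP.pol (bl n) d a) z ↔
      IsPt (bl n) d (fun i => ((a i : ℤ) : K)) (fun v => z v.1 v.2) := by
  unfold IsPoint IsPt NZ
  refine and_congr (forall_congr' fun c => ?_) (forall_congr' fun j => ?_)
  · rw [Function.ne_iff]
    constructor
    · rintro ⟨i, hi⟩
      exact ⟨⟨c, i⟩, rfl, hi⟩
    · rintro ⟨⟨c', i⟩, h1, hi⟩
      have : c' = c := h1
      subst this
      exact ⟨i, hi⟩
  · rw [Pool.Agent.L5helper36.FP.aeval_pol]

theorem hasPoint_iff {K : Type} [Field K] (a : Ix (bl n) d → ℤ) :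
    HasPoint (Pool.Agent.L5helper36.FP.pol (bl n) d a) K ↔
      ∃ z : Vars n → K, IsPt (bl n) d (fun i => ((a i : ℤ) : K)) z := by
  unfold HasPoint
  constructor
  · rintro ⟨z, hz⟩
    exact ⟨_, (isPoint_iff n d a z).mp hz⟩
  · rintro ⟨z, hz⟩
    exact ⟨fun c i => z ⟨c, i⟩, (isPoint_iff n d a _).mpr hz⟩

theorem smooth_iff (a : Ix (bl n) d → ℤ) :
    Smooth (Pool.Agent.L5helper36.FP.pol (bl n) d a) ↔ Sm (bl n) d a := by
  unfold Smooth Sm Smth
  constructor
  · intro h K _ _ z hz l hl
    obtain ⟨v, hv⟩ := h K (fun c i => z ⟨c, i⟩) ((isPoint_iff n d a _).mpr hz) l hl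
    refine ⟨v, ?_⟩
    simpa only [Pool.Agent.L5helper36.FP.aeval_pderiv_pol] using hv
  · intro h K _ _ z hz l hl
    obtain ⟨v, hv⟩ := h K _ ((isPoint_iff n d a z).mp hz) l hl
    refine ⟨v, ?_⟩
    simpa only [Pool.Agent.L5helper36.FP.aeval_pderiv_pol] using hv

theorem cnt_true {N : Type} [Fintype N] (H : ℕ) :
    cnt H (fun _ : N → ℤ => True) = (2 * (H : ℝ) + 1) ^ Fintype.card N := by
  classical
  unfold cnt
  have h1 : ({a : N → ℤ | (∀ i, |a i| ≤ (H : ℤ)) ∧ True} : Set (N → ℤ)) =
      ((Fintype.piFinset (fun _ : N => Finset.Icc (-(H : ℤ)) H) : Finset (N → ℤ)) : Set _) := by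
    ext a
    simp only [Set.mem_setOf_eq, and_true, Finset.mem_coe, Fintype.mem_piFinset, Finset.mem_Icc,
      abs_le]
  rw [h1, Set.ncard_coe_finset, Fintype.card_piFinset, Finset.prod_const, Finset.card_univ,
    Int.card_Icc]
  have h2 : ((H : ℤ) + 1 - -(H : ℤ)).toNat = 2 * H + 1 := by omega
  rw [h2]
  push_cast
  rfl

theorem ncard_iff (H : ℕ) (P : (Fin s → MvPolynomial (Vars n) ℤ) → Prop)
    (P' : (Ix (bl n) d → ℤ) → Prop)
    (h : ∀ a, P (Pool.Agent.L5helper36.FP.pol (bl n) d a) ↔ P' a) :
    (({F | F ∈ Systems n d H ∧ P F} : Set _).ncard : ℝ) = cnt H P' := by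
  have h1 := Pool.Agent.L5helper36.FP.ncard_pol (bl n) d H P
  have h2 : ({F | F ∈ Systems n d H ∧ P F} : Set (Fin s → MvPolynomial (Vars n) ℤ)) =
      {F | (∀ j, (∀ m ∈ (F j).support, ∀ c, ∑ v with bl n v = c, m v = d j c) ∧
        ∀ m, |(F j).coeff m| ≤ (H : ℤ)) ∧ P F} := by
    ext F
    simp only [Systems, Set.mem_setOf_eq, sum_block]
  rw [h2, h1]
  unfold cnt
  congr 2
  ext a
  simp only [Set.mem_setOf_eq, h]

end

/-- Let `n c₀ ≥ 3`, `d j c₀ ≥ 2` for all `j` and `∑ j, d j c₀ ≤ n c₀` for one factor `c₀`. Then a positive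
proportion of the complete intersections of `s` hypersurfaces of multidegrees `d j` in
`ℙ^(n 0) × … × ℙ^(n (r - 1))`, ordered by height, is smooth and everywhere locally soluble, and 100% of
the smooth everywhere locally soluble ones have a rational point. -/
theorem result (r s : ℕ) (n : Fin r → ℕ) (d : Fin s → Fin r → ℕ) (hs : 1 ≤ s) (c₀ : Fin r)
    (hn : 3 ≤ n c₀) (h2 : ∀ j, 2 ≤ d j c₀) (hd : ∑ j, d j c₀ ≤ n c₀) :
    (∃ c : ℝ, 0 < c ∧ ∀ᶠ H : ℕ in atTop, c * ((Systems n d H).ncard : ℝ) ≤
      (({F | F ∈ Systems n d H ∧ Smooth F ∧ LocallySoluble F} : Set _).ncard : ℝ)) ∧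
    Tendsto (fun H : ℕ =>
      (({F | F ∈ Systems n d H ∧ Smooth F ∧ HasPoint F ℚ} : Set _).ncard : ℝ) /
      (({F | F ∈ Systems n d H ∧ Smooth F ∧ LocallySoluble F} : Set _).ncard : ℝ))
      atTop (𝓝 1) := by
  have hX : Fintype.card (Pool.Agent.L5helper36.FP.Xv (bl n) c₀) = n c₀ + 1 := by
    rw [Fintype.card_subtype]
    have h1 := sum_block n c₀ (fun _ => 1)
    simpa using h1
  obtain ⟨⟨c, hc, h3⟩, h4⟩ := Pool.Agent.L5helper36.FP.main (bl n) d c₀ (fun c => ⟨c, 0⟩)
    (fun _ => rfl) hs h2 (by rw [hX]; omega) (by rw [hX]; omega)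
  have e1 : ∀ H : ℕ, (({F | F ∈ Systems n d H ∧ Smooth F ∧ LocallySoluble F} : Set _).ncard : ℝ) =
      Pool.Agent.L5helper36.FP.cnt H (fun a : Pool.Agent.L5helper36.FP.Ix (bl n) d → ℤ =>
        Pool.Agent.L5helper36.FP.Sm (bl n) d a ∧ Pool.Agent.L5helper36.FP.Els (bl n) d a) := by
    intro H
    refine ncard_iff n d H (fun F => Smooth F ∧ LocallySoluble F) _ fun a => ?_
    refine and_congr (smooth_iff n d a) (and_congr (hasPoint_iff n d a) ?_)
    exact forall_congr' fun p => forall_congr' fun _ => hasPoint_iff n d a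
  have e2 : ∀ H : ℕ, (({F | F ∈ Systems n d H ∧ Smooth F ∧ HasPoint F ℚ} : Set _).ncard : ℝ) =
      Pool.Agent.L5helper36.FP.cnt H (fun a : Pool.Agent.L5helper36.FP.Ix (bl n) d → ℤ =>
        Pool.Agent.L5helper36.FP.Sm (bl n) d a ∧ Pool.Agent.L5helper36.FP.Rp (bl n) d a) := by
    intro H
    refine ncard_iff n d H (fun F => Smooth F ∧ HasPoint F ℚ) _ fun a => ?_
    exact and_congr (smooth_iff n d a) (hasPoint_iff n d a)
  have e3 : ∀ H : ℕ, ((Systems n d H).ncard : ℝ) =
      (2 * (H : ℝ) + 1) ^ Fintype.card (Pool.Agent.L5helper36.FP.Ix (bl n) d) := by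
    intro H
    have h5 := ncard_iff n d H (fun _ => True) (fun _ => True) (fun _ => Iff.rfl)
    have h6 : ({F | F ∈ Systems n d H ∧ True} : Set (Fin s → MvPolynomial (Vars n) ℤ)) =
        Systems n d H := by
      ext F; simp
    rw [h6] at h5
    rw [h5]
    exact cnt_true H
  constructor
  · refine ⟨c, hc, ?_⟩
    filter_upwards [h3] with H h5
    rw [e1 H, e3 H]
    exact h5
  · refine h4.congr fun H => ?_
    rw [e1 H, e2 H]

end Pool.Agent.Results.MP_03ef3d_ag.FanoProducts
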