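import Pool.Agent.Y716.D.Main
import Pool.Agent.Z864.C.Minor
import Pool.Agent.L5helper29.NF.Main

/-!
# The Hasse principle for 100% of the systems `F_j(x) = P_j(w_j)`, `F_j` a random form and `P_j` an
# arbitrary fixed weighted homogeneous polynomial

Let `n ≥ 3` and let `d_1, …, d_s ≥ 2` be integers with `d_1 + … + d_s ≤ n`. For every `j` let `P_j`
be an arbitrary polynomial with integral coefficients in the variables `w_{j,1}, …, w_{j,t}`, which
is homogeneous of degree `d_j` if `w_{j,i}` has the weight `k_{j,i} ≥ 1`. For forms `F_1, …, F_s` of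
degrees `d_1, …, d_s` in `x_0, …, x_n` consider the variety

  `X_F : F_1(x) = P_1(w_1), …, F_s(x) = P_s(w_s)`, `x ≠ 0`,

in weighted projective space. The dualising sheaf of its closure is
`O(∑ d_j - n - 1 - ∑ k_{j,i})` if all the variables occur, so that it is a Fano variety if it is
smooth. Examples: the hypersurfaces `F(x) = P(w)` in `ℙ^{n+t}` for a fixed form `P` (smooth Fano
hypersurfaces if `P` is nonsingular and `F` is general); cyclic covers (`P_j = w^m`) and fibre
products of cyclic covers; the systems of norm equations `N_{K_j/ℚ}(w_j) = F_j(x)` for arbitrary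
number fields `K_j` of degree `d_j` (or, with weights, of any degree dividing `d_j`); `P_j = 0`
gives complete intersections in `ℙⁿ`.

No assumption at all is made on the `P_j`: the equations `P_j(w) = a` may violate the Hasse
principle in any way. Nevertheless, among the systems `F` with coefficients bounded by `H` for which
`X_F` is smooth and has points over the real numbers and over all the `p`-adic fields (a positive
proportion of all `F`), a proportion tending to `1` as `H → ∞` has a rational point.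
-/

set_option autoImplicit false

namespace Pool.Agent.Results.MP_03ef3d_ag.NormTypeEquations

open Filter Topology

/-- The systems of forms of degrees `d_1, …, d_s` in `n + 1` variables whose coefficients are
integers of absolute value at most `H`. -/
def Systems {s : ℕ} (n : ℕ) (d : Fin s → ℕ) (H : ℕ) : Set (Fin s → MvPolynomial (Fin (n + 1)) ℤ) :=
  {F | ∀ j, (F j).IsHomogeneous (d j) ∧ ∀ a, |(F j).coeff a| ≤ (H : ℤ)}

variable {n s t : ℕ}

/-- The variety `X_F : F_j(x) = P_j(w_j)` for all `j`, `x ≠ 0`, has a point over the field `K`. -/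
def HasPoint (P : Fin s → MvPolynomial (Fin t) ℤ) (F : Fin s → MvPolynomial (Fin (n + 1)) ℤ)
    (K : Type) [Field K] : Prop :=
  ∃ (x : Fin (n + 1) → K) (w : Fin s → Fin t → K), x ≠ 0 ∧
    ∀ j, MvPolynomial.aeval x (F j) = MvPolynomial.aeval (w j) (P j)

/-- `X_F` has points over the real numbers and over all the `p`-adic fields. -/
def LocallySoluble (P : Fin s → MvPolynomial (Fin t) ℤ)
    (F : Fin s → MvPolynomial (Fin (n + 1)) ℤ) : Prop :=
  HasPoint P F ℝ ∧ ∀ (p : ℕ) [Fact p.Prime], HasPoint P F ℚ_[p]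

/-- `X_F` is smooth: at every point of `X_F` over a field of characteristic zero the gradients of
the equations `F_j(x) - P_j(w_j)`, with respect to all the variables, are linearly independent. -/
def Smooth (P : Fin s → MvPolynomial (Fin t) ℤ) (F : Fin s → MvPolynomial (Fin (n + 1)) ℤ) : Prop :=
  ∀ (K : Type) [Field K] [CharZero K] (x : Fin (n + 1) → K) (w : Fin s → Fin t → K)
    (l : Fin s → K), x ≠ 0 → l ≠ 0 →
    (∀ j, MvPolynomial.aeval x (F j) = MvPolynomial.aeval (w j) (P j)) →
    (∃ i, ∑ j, l j * MvPolynomial.aeval x (MvPolynomial.pderiv i (F j)) ≠ 0) ∨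
      ∃ j i, l j * MvPolynomial.aeval (w j) (MvPolynomial.pderiv i (P j)) ≠ 0

/-- Let `n ≥ 3`, `d_j ≥ 2`, `d_1 + … + d_s ≤ n` and let `P_1, …, P_s` be arbitrary weighted
homogeneous polynomials of degrees `d_1, …, d_s` with positive weights. 100% of the everywhere
locally soluble smooth varieties `F_1(x) = P_1(w_1), …, F_s(x) = P_s(w_s)` have a rational point,
when the integral forms `F_j` of degree `d_j` in `n + 1` variables are ordered by height; the
everywhere locally soluble ones are a positive proportion. -/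
theorem result (n s t : ℕ) (hn : 3 ≤ n) (hs : 1 ≤ s) (d : Fin s → ℕ) (hd : ∀ j, 2 ≤ d j)
    (hsum : ∑ j, d j ≤ n) (k : Fin s → Fin t → ℕ) (hk : ∀ j i, 1 ≤ k j i)
    (P : Fin s → MvPolynomial (Fin t) ℤ) (hP : ∀ j, (P j).IsWeightedHomogeneous (k j) (d j)) :
    (∃ c : ℝ, 0 < c ∧ ∀ᶠ H : ℕ in atTop, c * ((Systems n d H).ncard : ℝ) ≤
      (({F | F ∈ Systems n d H ∧ Smooth P F ∧ LocallySoluble P F} : Set _).ncard : ℝ)) ∧
    Tendsto (fun H : ℕ =>
      (({F | F ∈ Systems n d H ∧ Smooth P F ∧ HasPoint P F ℚ} : Set _).ncard : ℝ) /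
      (({F | F ∈ Systems n d H ∧ Smooth P F ∧ LocallySoluble P F} : Set _).ncard : ℝ))
      atTop (𝓝 1) := by
  obtain ⟨e, rfl⟩ : ∃ e : Fin s → ℕ, d = fun j => e j + 2 :=
    ⟨fun j => d j - 2, by funext j; have := hd j; dsimp only; omega⟩
  obtain ⟨κ, rfl⟩ : ∃ κ : Fin s → Fin t → ℕ, k = fun j i => κ j i + 1 :=
    ⟨fun j i => k j i - 1, by funext j i; have := hk j i; dsimp only; omega⟩
  obtain ⟨h1, h2⟩ := Pool.Agent.Y716.D.dims hs hn hsum
  have hmain := Pool.Agent.L5helper29.NF.hp_norm (Fin (n + 1)) hs (by omega) hP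
    (Pool.Agent.Y716.D.class_all (Fin (n + 1)) hs h1 e h2)
    (fun _ e' => Pool.Agent.Y232.CS.bad_int (Fin (n + 1)) e')
    (fun _ e' => Pool.Agent.Y407.C4.bad_real (Fin (n + 1)) e')
    (Pool.Agent.Z864.C.minor (Fin (n + 1)) s)
    (Pool.Agent.Y716.D.pos_all (Fin (n + 1)) hs h1 e h2)
  obtain ⟨⟨c, hc, h3⟩, h4⟩ := hmain
  refine ⟨⟨c, hc, ?_⟩, h4⟩
  filter_upwards [h3] with H h5
  have e3 : ({f : Fin s → MvPolynomial (Fin (n + 1)) ℤ |
      (∀ j, (f j).IsHomogeneous (e j + 2) ∧ ∀ a, |(f j).coeff a| ≤ (H : ℤ)) ∧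
      True} : Set _).ncard = (Systems n (fun j => e j + 2) H).ncard := by
    congr 1
    ext F
    simp [Systems]
  rw [e3] at h5
  exact h5

end Pool.Agent.Results.MP_03ef3d_ag.NormTypeEquations
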