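import Pool.Agent.L5helper36.FPN.Main
import Pool.Agent.L5helper19.FP.Pol

/-!
# The Hasse principle for 100% of the systems `F_j(x) = P_j(w_j)`, `F_j` a random multihomogeneous
# form on a product of projective spaces and `P_j` a fixed weighted homogeneous polynomial

Let `F₁, …, F_s` be integral forms of multidegrees `d₁, …, d_s` in the homogeneous coordinates `x` of
`ℙ = ℙ^(n₀) × … × ℙ^(n_(r-1))` and let `P₁, …, P_s` be fixed nonzero integral polynomials, `P_j` in the
variables `w_j = (w_{j,1}, …, w_{j,t})`, such that `P_j` is homogeneous of multidegree `d_j` if `w_{j,i}`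
has the multidegree `k_{j,i}`, an `r`-tuple of nonnegative integers. Consider the variety

  `X_F : F_1(x) = P_1(w_1), …, F_s(x) = P_s(w_s)`, `x` in `ℙ`,

over `ℙ` (for `c < r` the scalar `λ` in the coordinates of the factor `ℙ^(n_c)` acts on `w_{j,i}` by
`λ^(k_{j,i}(c))`). Examples are

* the cyclic covers `w^m = F(x)` of `ℙ` (for instance the triple covers of `ℙ³ × ℙ²` branched along
  divisors of bidegree `(3, 3)`, and the double covers of `ℙ⁴ × ℙ¹` branched along divisors of bidegree
  `(4, 2)`) and the fibre products `w_j^(m_j) = F_j(x)` of such covers; if `X_F` is smooth then it is a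
  Fano variety if and only if `∑_j (m_j - 1) k_j(c) ≤ n_c` for all `c`, where `k_j = d_j / m_j`;
* the varieties given by norm equations `N_{K_j/ℚ}(w_j) = F_j(x)` for number fields `K_j` of degrees
  `m_j` dividing all the `d_j(c)`;
* the equations `F(x, y) = P(w)` with a form `P` of degree `d` and `F` of bidegree `(d, d l)`:
  hypersurfaces in a projective bundle over `ℙ^(n₁)`.

We assume that in one factor `c₀` one has `n_(c₀) ≥ 3`, `d_j(c₀) ≥ 2`, `∑ j, d_j(c₀) ≤ n_(c₀)` and
`k_{j,i}(c₀) ≥ 1`. There is no other assumption: the degrees in the other factors are arbitrary, and the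
equations `P_j(w) = a` may violate the Hasse principle in any way. If `H → ∞`, then a positive proportion
of all systems `F` with coefficients bounded by `H` is smooth and has points over the real numbers and
over all the `p`-adic fields, and among these a proportion tending to `1` has a rational point.

Proof. We project to the product of the other factors. At each place we find, by a compactness argument,
a uniform neighbourhood of the system: the values of `P_j` over a local field are open away from `0` and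
closed, because numbers close to `1` are `m`-th powers; at a point with `F_j(x) = 0` for `j ∈ A` one moves
`x` so that the `F_j(x)`, `j ∈ A`, become small nonzero values of `P_j`; here one uses that the gradients
of the `F_j`, `j ∈ A`, are independent, a generic property. So for a box of systems in a residue class
there is a rational point `y` of the other factors such that the fibre over `y` has points over `ℝ` and
over `ℚ_p`, `p ≤ w`. On the fibre one replaces `w_j` by auxiliary forms in `x` (`L5helper29.NF`) and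
applies the theorem on the zeros of almost all the systems of forms in a box in a residue class.
-/

set_option autoImplicit false

namespace Pool.Agent.Results.MP_03ef3d_ag.NormTypeOverProducts

open Filter Topology MvPolynomial

/-- The variables: `(c, i)`, `i ≤ n c`, are the homogeneous coordinates of the factor `ℙ^(n c)`. -/
abbrev Vars {r : ℕ} (n : Fin r → ℕ) : Type := Σ c : Fin r, Fin (n c + 1)

/-- The systems `F_j`, `j < s`, of polynomials with integral coefficients of absolute value at most
`H`, such that `F_j` is homogeneous of degree `d j c` in the coordinates of each factor `ℙ^(n c)`. -/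
def Systems {r s : ℕ} (n : Fin r → ℕ) (d : Fin s → Fin r → ℕ) (H : ℕ) :
    Set (Fin s → MvPolynomial (Vars n) ℤ) :=
  {F | ∀ j, (∀ m ∈ (F j).support, ∀ c, ∑ i, m ⟨c, i⟩ = d j c) ∧
    ∀ m, |(F j).coeff m| ≤ (H : ℤ)}

/-- `(x, w)` are coordinates of a point of `X_F` over the field `K`: the coordinates
`x c = (x c 0 : … : x c (n c))` of the factor `c` are not all zero, and `F_j(x) = P_j(w_j)` for all
`j`. -/
def IsPoint {r s t : ℕ} {n : Fin r → ℕ} (P : Fin s → MvPolynomial (Fin t) ℤ)
    (F : Fin s → MvPolynomial (Vars n) ℤ) {K : Type} [Field K]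
    (x : (c : Fin r) → Fin (n c + 1) → K) (w : Fin s → Fin t → K) : Prop :=
  (∀ c, x c ≠ 0) ∧ ∀ j, aeval (fun v : Vars n => x v.1 v.2) (F j) = aeval (w j) (P j)

/-- `X_F` is smooth: at each of its points over a field of characteristic zero the gradients of the
equations `F_j(x) - P_j(w_j)`, with respect to all the variables, are linearly independent. -/
def Smooth {r s t : ℕ} {n : Fin r → ℕ} (P : Fin s → MvPolynomial (Fin t) ℤ)
    (F : Fin s → MvPolynomial (Vars n) ℤ) : Prop :=
  ∀ (K : Type) [Field K] [CharZero K] (x : (c : Fin r) → Fin (n c + 1) → K)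
    (w : Fin s → Fin t → K), IsPoint P F x w → ∀ l : Fin s → K, l ≠ 0 →
      (∃ v : Vars n, ∑ j, l j * aeval (fun v : Vars n => x v.1 v.2) (pderiv v (F j)) ≠ 0) ∨
        ∃ j i, l j * aeval (w j) (pderiv i (P j)) ≠ 0

/-- `X_F` has a point over the field `K`. -/
def HasPoint {r s t : ℕ} {n : Fin r → ℕ} (P : Fin s → MvPolynomial (Fin t) ℤ)
    (F : Fin s → MvPolynomial (Vars n) ℤ) (K : Type) [Field K] : Prop :=
  ∃ (x : (c : Fin r) → Fin (n c + 1) → K) (w : Fin s → Fin t → K), IsPoint P F x w

/-- `X_F` has points over the real numbers and over all the `p`-adic fields. -/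
def LocallySoluble {r s t : ℕ} {n : Fin r → ℕ} (P : Fin s → MvPolynomial (Fin t) ℤ)
    (F : Fin s → MvPolynomial (Vars n) ℤ) : Prop :=
  HasPoint P F ℝ ∧ ∀ (p : ℕ) [Fact p.Prime], HasPoint P F ℚ_[p]

section

open Pool.Agent.L5helper36.FP Pool.Agent.L5helper36.FPN

variable {r s t : ℕ} (n : Fin r → ℕ) (d : Fin s → Fin r → ℕ) (P : Fin s → MvPolynomial (Fin t) ℤ)

/-- the block of a variable -/
def bl : Vars n → Fin r := Sigma.fst

theorem sum_block (c : Fin r) (m : Vars n → ℕ) :
    ∑ v with bl n v = c, m v = ∑ i, m ⟨c, i⟩ := by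
  rw [Finset.sum_filter, Fintype.sum_sigma]
  rw [Finset.sum_eq_single c]
  · simp [bl]
  · intro c' _ hc'
    simp [bl, hc']
  · intro h
    exact absurd (Finset.mem_univ c) h

theorem nz_iff {K : Type} [Field K] (z : (c : Fin r) → Fin (n c + 1) → K) :
    (∀ c, z c ≠ 0) ↔ NZ (bl n) (fun v => z v.1 v.2) := by
  refine forall_congr' fun c => ?_
  rw [Function.ne_iff]
  constructor
  · rintro ⟨i, hi⟩
    exact ⟨⟨c, i⟩, rfl, hi⟩
  · rintro ⟨⟨c', i⟩, h1, hi⟩
    have : c' = c := h1
    subst this
    exact ⟨i, hi⟩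

theorem hasPoint_iff {K : Type} [Field K] (a : Ix (bl n) d → ℤ) :
    HasPoint P (Pool.Agent.L5helper36.FP.pol (bl n) d a) K ↔
      HasN (bl n) d P (fun i => ((a i : ℤ) : K)) := by
  constructor
  · rintro ⟨z, w, hz, hev⟩
    refine ⟨_, (nz_iff n z).mp hz, fun j => ⟨w j, ?_⟩⟩
    rw [← Pool.Agent.L5helper36.FP.aeval_pol]
    exact (hev j).symm
  · rintro ⟨z, hz, hev⟩
    choose w hw using hev
    refine ⟨fun c i => z ⟨c, i⟩, w, (nz_iff n _).mpr hz, fun j => ?_⟩
    rw [hw j, Pool.Agent.L5helper36.FP.aeval_pol]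

theorem smooth_iff (a : Ix (bl n) d → ℤ) :
    Smooth P (Pool.Agent.L5helper36.FP.pol (bl n) d a) ↔ SmN (bl n) d P a := by
  unfold Smooth SmN
  constructor
  · intro h K _ _ z w l hz hl hev
    have h1 := h K (fun c i => z ⟨c, i⟩) w ⟨(nz_iff n _).mpr hz, fun j => by
      rw [← hev j, Pool.Agent.L5helper36.FP.aeval_pol]⟩ l hl
    simpa only [Pool.Agent.L5helper36.FP.aeval_pderiv_pol] using h1
  · intro h K _ _ z w hz l hl
    have h1 := h K (fun v => z v.1 v.2) w l ((nz_iff n z).mp hz.1) hl (fun j => by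
      rw [← hz.2 j, Pool.Agent.L5helper36.FP.aeval_pol])
    simpa only [Pool.Agent.L5helper36.FP.aeval_pderiv_pol] using h1

theorem ncard_iff (H : ℕ) (R : (Fin s → MvPolynomial (Vars n) ℤ) → Prop)
    (R' : (Ix (bl n) d → ℤ) → Prop)
    (h : ∀ a, R (Pool.Agent.L5helper36.FP.pol (bl n) d a) ↔ R' a) :
    (({F | F ∈ Systems n d H ∧ R F} : Set _).ncard : ℝ) = cnt H R' := by
  have h1 := Pool.Agent.L5helper36.FP.ncard_pol (bl n) d H R
  have h2 : ({F | F ∈ Systems n d H ∧ R F} : Set (Fin s → MvPolynomial (Vars n) ℤ)) =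
      {F | (∀ j, (∀ m ∈ (F j).support, ∀ c, ∑ v with bl n v = c, m v = d j c) ∧
        ∀ m, |(F j).coeff m| ≤ (H : ℤ)) ∧ R F} := by
    ext F
    simp only [Systems, Set.mem_setOf_eq, sum_block]
  rw [h2, h1]
  unfold cnt
  congr 2
  ext a
  simp only [Set.mem_setOf_eq, h]

end

/-- Let `n c₀ ≥ 3`, `d j c₀ ≥ 2` for all `j` and `∑ j, d j c₀ ≤ n c₀` for one factor `c₀`, and let the
`P j` be nonzero and homogeneous of multidegree `d j` for the multidegrees `k j i` of the variables, with
`k j i c₀ ≥ 1`. Then a positive proportion of the varieties `X_F : F_j(x) = P_j(w_j)`, ordered by the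
height of `F`, is smooth and everywhere locally soluble, and 100% of the smooth everywhere locally
soluble ones have a rational point. -/
theorem result (r s t : ℕ) (n : Fin r → ℕ) (d : Fin s → Fin r → ℕ) (hs : 1 ≤ s) (c₀ : Fin r)
    (hn : 3 ≤ n c₀) (h2 : ∀ j, 2 ≤ d j c₀) (hd : ∑ j, d j c₀ ≤ n c₀)
    (k : Fin s → Fin t → Fin r → ℕ) (hk : ∀ j i, 1 ≤ k j i c₀)
    (P : Fin s → MvPolynomial (Fin t) ℤ) (hP0 : ∀ j, P j ≠ 0)
    (hP : ∀ j c, (P j).IsWeightedHomogeneous (fun i => k j i c) (d j c)) :
    (∃ c : ℝ, 0 < c ∧ ∀ᶠ H : ℕ in atTop, c * ((Systems n d H).ncard : ℝ) ≤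
      (({F | F ∈ Systems n d H ∧ Smooth P F ∧ LocallySoluble P F} : Set _).ncard : ℝ)) ∧
    Tendsto (fun H : ℕ =>
      (({F | F ∈ Systems n d H ∧ Smooth P F ∧ HasPoint P F ℚ} : Set _).ncard : ℝ) /
      (({F | F ∈ Systems n d H ∧ Smooth P F ∧ LocallySoluble P F} : Set _).ncard : ℝ))
      atTop (𝓝 1) := by
  have hX : Fintype.card (Pool.Agent.L5helper36.FP.Xv (bl n) c₀) = n c₀ + 1 := by
    rw [Fintype.card_subtype]
    have h1 := sum_block n c₀ (fun _ => 1)
    simpa using h1
  obtain ⟨⟨c, hc, h3⟩, h4⟩ := Pool.Agent.L5helper36.FPN.mainN (bl n) d c₀ (fun c => ⟨c, 0⟩)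
    (fun _ => rfl) hs h2 (by rw [hX]; omega) (by rw [hX]; omega) P hP0
    (fun j c i => k j i c) hP hk
  have e1 : ∀ H : ℕ, (({F | F ∈ Systems n d H ∧ Smooth P F ∧ LocallySoluble P F} :
      Set _).ncard : ℝ) =
      Pool.Agent.L5helper36.FP.cnt H (fun a : Pool.Agent.L5helper36.FP.Ix (bl n) d → ℤ =>
        Pool.Agent.L5helper36.FPN.SmN (bl n) d P a ∧
        Pool.Agent.L5helper36.FPN.ElsN (bl n) d P a) := by
    intro H
    refine ncard_iff n d H (fun F => Smooth P F ∧ LocallySoluble P F) _ fun a => ?_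
    refine and_congr (smooth_iff n d P a) (and_congr (hasPoint_iff n d P a) ?_)
    exact forall_congr' fun p => forall_congr' fun _ => hasPoint_iff n d P a
  have e2 : ∀ H : ℕ, (({F | F ∈ Systems n d H ∧ Smooth P F ∧ HasPoint P F ℚ} :
      Set _).ncard : ℝ) =
      Pool.Agent.L5helper36.FP.cnt H (fun a : Pool.Agent.L5helper36.FP.Ix (bl n) d → ℤ =>
        Pool.Agent.L5helper36.FPN.SmN (bl n) d P a ∧
        Pool.Agent.L5helper36.FPN.RpN (bl n) d P a) := by
    intro H
    refine ncard_iff n d H (fun F => Smooth P F ∧ HasPoint P F ℚ) _ fun a => ?_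
    exact and_congr (smooth_iff n d P a) (hasPoint_iff n d P a)
  have e3 : ∀ H : ℕ, ((Systems n d H).ncard : ℝ) =
      (2 * (H : ℝ) + 1) ^ Fintype.card (Pool.Agent.L5helper36.FP.Ix (bl n) d) := by
    intro H
    have h5 := ncard_iff n d H (fun _ => True) (fun _ => True) (fun _ => Iff.rfl)
    have h6 : ({F | F ∈ Systems n d H ∧ True} : Set (Fin s → MvPolynomial (Vars n) ℤ)) =
        Systems n d H := by
      ext F; simp
    rw [h6] at h5
    rw [h5]
    exact Pool.Agent.L5helper36.FP.cnt_true H
  constructor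
  · refine ⟨c, hc, ?_⟩
    filter_upwards [h3] with H h5
    rw [e1 H, e3 H]
    exact h5
  · refine h4.congr fun H => ?_
    rw [e1 H, e2 H]

end Pool.Agent.Results.MP_03ef3d_ag.NormTypeOverProducts
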