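import Pool.Agent.L5helper31.TV.Main

/-!
# The Hasse principle for 100% of the hypersurfaces in toric projective bundles

Let `X` be a smooth projective split toric variety over `ℚ`, which is a `ℙ^n`-bundle `X → T` over a
toric variety `T`, and let `L` be an ample class on `X`. The Cox ring of `X` is the polynomial ring
in the variables `z v`, `v : V`, one for each torus invariant prime divisor `D_v`, graded by
`Pic X = ℤ^r`, `deg v` being the class of `D_v`. The hypersurfaces in the linear system `|L|` are
given by the polynomials `P` of degree `L` in this ring; we order those with integral coefficients by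
the maximum `H` of the absolute values of the coefficients.

Theorem. Let `d` be the degree of `L` on the fibres `ℙ^n`, and assume `d ≤ n`, `(d, n) ≠ (2, 2)`.
Then a positive proportion of all the `P` define smooth hypersurfaces with points over the real numbers
and over all the `p`-adic fields, and among these the proportion of those with a rational point tends
to `1` as `H → ∞`.

If `n ≥ 3`, then `d ≤ n` holds for all the classes `L` of smooth Fano hypersurfaces of `X` for which
`-K_X - L` is ample. Examples of `X` are products of projective spaces, all the smooth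
projective toric varieties of Picard number two (Kleinschmidt), and iterated bundles (generalised Bott
towers); the blow-up of `ℙ^N` in a linear subspace `ℙ^(n-1)` gives the hypersurfaces of degree `D` of
`ℙ^N` which have multiplicity `D - d` along the subspace.

Proof. We choose a rational point `y` of `T`, in terms of the local points of the hypersurface and
hence for all the hypersurfaces in a box in a residue class at the same time, such that the fibre over
`y`, a hypersurface of degree `d` in `ℙ^n`, has stable points over `ℝ` and over `ℚ_p`, `p ≤ w`. The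
forms on the fibre over a primitive representative `y` (an integral point of the universal torsor) are
equidistributed, and the theorem on the zeros of almost all the forms of degree `d` in a box in a
residue class (starting point of this repository, `Y716.Q.class_theorem`) gives rational points on the
fibres over `y` for all but `ε` of the hypersurfaces.

We describe `X` by Gale duality: `S` is the set of the complements `J` of the sets of rays of the
maximal cones of the fan. The maximal cone is smooth if and only if the classes `deg v`, `v ∈ J`, form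
a basis of `Pic X`, and the fan is complete if and only if every facet of a maximal cone is
contained in a second one. A class is ample if and only if its coordinates with respect to all these
bases are positive.
-/

set_option autoImplicit false

namespace Pool.Agent.Results.MP_03ef3d_ag.ToricBundleHypersurfaces

open Filter Topology MvPolynomial

section defs

variable {V : Type} [Fintype V] [DecidableEq V] {r : ℕ}

/-- The data of a smooth complete toric variety `X` with Picard group `ℤ^r`: the classes `deg v` of
the torus invariant prime divisors `D_v`, `v : V`, and the set `S` of the sets `J` for which the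
`D_v`, `v ∉ J`, are the prime divisors through one of the torus fixed points (the `v ∉ J` are the
rays of a maximal cone of the fan). -/
structure IsToric (deg : V → Fin r → ℤ) (S : Finset (Finset V)) : Prop where
  nonempty : S.Nonempty
  rays : ∀ v, ∃ J ∈ S, v ∉ J
  basis : ∀ J ∈ S, ∀ g : Fin r → ℤ, ∃! c : V → ℤ, (∀ v ∉ J, c v = 0) ∧ ∑ v, c v • deg v = g
  wall : ∀ J ∈ S, ∀ w ∉ J, ∃ u ∈ J, insert w (J.erase u) ∈ S

/-- The class `L` is ample: its coordinates with respect to all the bases `deg v`, `v ∈ J`,
`J ∈ S`, are positive. -/
def IsAmple (deg : V → Fin r → ℤ) (S : Finset (Finset V)) (L : Fin r → ℤ) : Prop :=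
  ∀ J ∈ S, ∀ c : V → ℤ, (∀ v ∉ J, c v = 0) → ∑ v, c v • deg v = L → ∀ v ∈ J, 0 < c v

/-- `X` is a `ℙ^n`-bundle over a toric variety, `n + 1 = F.card`, the `z v`, `v ∈ F`, being the
homogeneous coordinates of the fibres, and `l` is the degree on the lines in the fibres: `l` is `1` on
`D_v` for `v ∈ F` and `0` for `v ∉ F`, and every maximal cone of the fan contains all but one of the
rays in `F`, the omitted one being arbitrary. -/
structure IsProjectiveBundle (deg : V → Fin r → ℤ) (S : Finset (Finset V)) (F : Finset V)
    (l : (Fin r → ℤ) →+ ℤ) : Prop where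
  fibre : ∀ v ∈ F, l (deg v) = 1
  base : ∀ v ∉ F, l (deg v) = 0
  one : ∀ J ∈ S, ∃ i, J ∩ F = {i}
  swap : ∀ J ∈ S, ∀ i ∈ J ∩ F, ∀ j ∈ F, insert j (J.erase i) ∈ S

/-- The polynomials of degree `L` in the Cox ring, with integral coefficients of absolute value at
most `H`. -/
def Polys (deg : V → Fin r → ℤ) (L : Fin r → ℤ) (H : ℕ) : Set (MvPolynomial V ℤ) :=
  {P | (∀ m, P.coeff m ≠ 0 → ∑ v, m v • deg v = L) ∧ ∀ m, |P.coeff m| ≤ (H : ℤ)}

/-- `z` are the Cox coordinates of a point over `K` of the hypersurface `P = 0` of `X`. -/
def IsPoint (S : Finset (Finset V)) (P : MvPolynomial V ℤ) {K : Type} [Field K] (z : V → K) :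
    Prop := (∃ J ∈ S, ∀ v ∈ J, z v ≠ 0) ∧ aeval z P = 0

/-- The hypersurface has a point over `K`. -/
def HasPoint (S : Finset (Finset V)) (P : MvPolynomial V ℤ) (K : Type) [Field K] : Prop :=
  ∃ z : V → K, IsPoint S P z

/-- The hypersurface has points over the real numbers and over all the `p`-adic fields. -/
def LocallySoluble (S : Finset (Finset V)) (P : MvPolynomial V ℤ) : Prop :=
  HasPoint S P ℝ ∧ ∀ (p : ℕ) [Fact p.Prime], HasPoint S P ℚ_[p]

/-- The hypersurface is smooth: the gradient of `P` is nonzero at all of its points over fields of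
characteristic zero. -/
def Smooth (S : Finset (Finset V)) (P : MvPolynomial V ℤ) : Prop :=
  ∀ (K : Type) [Field K] [CharZero K] (z : V → K), IsPoint S P z → ∃ v, aeval z (pderiv v P) ≠ 0

end defs

theorem result {V : Type} [Fintype V] [DecidableEq V] {r : ℕ} (deg : V → Fin r → ℤ)
    (S : Finset (Finset V)) (hX : IsToric deg S) (L : Fin r → ℤ) (hL : IsAmple deg S L)
    (F : Finset V) (l : (Fin r → ℤ) →+ ℤ) (hF : IsProjectiveBundle deg S F l)
    (hd : l L < F.card) (h22 : ¬ (l L = 2 ∧ F.card = 3)) :
    (∃ κ : ℝ, 0 < κ ∧ ∀ᶠ H : ℕ in atTop, κ * ((Polys deg L H).ncard : ℝ) ≤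
      ({P ∈ Polys deg L H | Smooth S P ∧ LocallySoluble S P}.ncard : ℝ)) ∧
    Tendsto (fun H : ℕ =>
      ({P ∈ Polys deg L H | Smooth S P ∧ HasPoint S P ℚ}.ncard : ℝ) /
      ({P ∈ Polys deg L H | Smooth S P ∧ LocallySoluble S P}.ncard : ℝ)) atTop (𝓝 1) := by
  classical
  obtain ⟨β, hβ⟩ : ∃ β : V → Bool, ∀ v, β v = true ↔ v ∈ F :=
    ⟨fun v => decide (v ∈ F), fun v => by simp⟩
  have hS' : Pool.Agent.L5helper31.TV.IsFan deg S := ⟨hX.nonempty, hX.basis, hX.wall⟩
  have hA' : Pool.Agent.L5helper31.TV.IsAmple deg S L := hL
  have hB' : Pool.Agent.L5helper31.TV.IsBundle deg S β l := by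
    refine ⟨fun v => ?_, fun J hJ => ?_, fun J hJ i hi hbi j hbj => ?_⟩
    · by_cases hv : v ∈ F
      · rw [if_pos ((hβ v).mpr hv)]
        exact hF.fibre v hv
      · rw [if_neg (fun h => hv ((hβ v).mp h))]
        exact hF.base v hv
    · obtain ⟨i, hi⟩ := hF.one J hJ
      have h1 : i ∈ J ∩ F := by rw [hi]; exact Finset.mem_singleton_self i
      rw [Finset.mem_inter] at h1
      refine ⟨i, h1.1, (hβ i).mpr h1.2, fun j hj hbj => ?_⟩
      have h2 : j ∈ J ∩ F := Finset.mem_inter.mpr ⟨hj, (hβ j).mp hbj⟩
      rw [hi] at h2
      exact Finset.mem_singleton.mp h2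
    · exact hF.swap J hJ i (Finset.mem_inter.mpr ⟨hi, (hβ i).mp hbi⟩) j ((hβ j).mp hbj)
  have hcard : Fintype.card (Pool.Agent.L5helper31.TV.FV β) = F.card := by
    rw [Fintype.card_subtype]
    congr 1
    ext v
    simp [hβ]
  have hpos : 0 < l L := Pool.Agent.L5helper31.TV.deg_pos hS' hA' hB'
  obtain ⟨d, hd'⟩ : ∃ d : ℕ, l L = d := ⟨(l L).toNat, (Int.toNat_of_nonneg hpos.le).symm⟩
  have key := Pool.Agent.L5helper31.TV.main_thm2 hS' hA' hB' hd' (by omega)
    (by rw [hcard]; omega) (by rw [hcard]; omega)
  have e0 : ∀ H, Pool.Agent.L5helper31.TV.Fam2 deg L H = Polys deg L H := fun H => rfl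
  have e1 : ∀ (P : MvPolynomial V ℤ) (K : Type) [Field K],
      Pool.Agent.L5helper31.TV.HasPoint2 S P K ↔ HasPoint S P K := fun P K _ => Iff.rfl
  have e2 : ∀ P : MvPolynomial V ℤ,
      Pool.Agent.L5helper31.TV.LocSol2 S P ↔ LocallySoluble S P := fun P => Iff.rfl
  have e3 : ∀ P : MvPolynomial V ℤ, Pool.Agent.L5helper31.TV.SmoothH2 S P ↔ Smooth S P := fun P =>
    ⟨fun h K _ _ z hz => h K z hz.1 hz.2, fun h K _ _ z h1 h2 => h K z ⟨h1, h2⟩⟩
  simp only [e0, e1, e2, e3] at key
  exact key

end Pool.Agent.Results.MP_03ef3d_ag.ToricBundleHypersurfaces
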